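import Mathlib

/-! Project elliptic powers: disjoint blocks of pairwise different values. -/

set_option autoImplicit false

namespace Pool.Agent.Helper98.EP2

/-- two injections differ by a permutation -/
theorem exists_perm {α β : Type*} [Finite α] (g f : β → α) (hg : Function.Injective g)
    (hf : Function.Injective f) : ∃ σ : Equiv.Perm α, ∀ x, σ (g x) = f x := by
  classical
  have := Fintype.ofFinite α
  let e : {x // x ∈ Set.range g} ≃ {x // x ∈ Set.range f} :=
    (Equiv.ofInjective g hg).symm.trans (Equiv.ofInjective f hf)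
  refine ⟨e.extendSubtype, fun x => ?_⟩
  rw [Equiv.extendSubtype_apply_of_mem e (g x) ⟨x, rfl⟩]
  show ((Equiv.ofInjective f hf) ((Equiv.ofInjective g hg).symm ⟨g x, _⟩) : α) = f x
  rw [Equiv.ofInjective_symm_apply]
  rfl

/-- All multiplicities at most `ν`. -/
theorem exists_blocks_sorted {α : Type*} (r ν : ℕ) (a : Fin (r * ν) → α)
    (h : ∀ b : α, {i | a i = b}.ncard ≤ ν) :
    ∃ f : Fin ν × Fin r → Fin (r * ν), Function.Injective f ∧
      ∀ k i j, i ≠ j → a (f (k, i)) ≠ a (f (k, j)) := by
  classical
  let s : Finset α := Finset.univ.image a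
  let e := s.equivFin
  let b : Fin (r * ν) → Fin s.card :=
    fun i => e ⟨a i, Finset.mem_image_of_mem a (Finset.mem_univ i)⟩
  have hb : ∀ i j, b i = b j ↔ a i = a j := by
    intro i j
    rw [e.injective.eq_iff, Subtype.mk.injEq]
  let τ := Tuple.sort b
  have hmono : Monotone (b ∘ τ) := Tuple.monotone_sort b
  let f : Fin ν × Fin r → Fin (r * ν) := fun x => τ (finProdFinEquiv (x.2, x.1))
  have hf : Function.Injective f := by
    intro x y hxy
    have h1 := finProdFinEquiv.injective (τ.injective hxy)
    rw [Prod.mk.injEq] at h1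
    exact Prod.ext h1.2 h1.1
  have key : ∀ k i j, i < j → a (f (k, i)) ≠ a (f (k, j)) := by
    intro k i j hij h0
    have hν : 0 < ν := k.pos
    have hlt : ∀ t : Fin (ν + 1), (k : ℕ) + ν * i + t < r * ν := by
      intro t
      have h1 : ν * (i + 1) ≤ ν * j := Nat.mul_le_mul_left ν hij
      have h2 : ν * (j + 1) ≤ ν * r := Nat.mul_le_mul_left ν j.2
      have h3 : ν * (i + 1) = ν * i + ν := by ring
      have h4 : ν * (j + 1) = ν * j + ν := by ring
      have h5 : ν * r = r * ν := by ring
      have := k.2
      have := t.2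
      omega
    have h1 : b (f (k, i)) = b (f (k, j)) := (hb _ _).2 h0
    have h2 : ∀ t : Fin (ν + 1), a (τ ⟨k + ν * i + t, hlt t⟩) = a (f (k, i)) := by
      intro t
      have h3 : b (f (k, i)) ≤ b (τ ⟨k + ν * i + t, hlt t⟩) := by
        refine hmono (a := finProdFinEquiv (i, k)) ?_
        show (k : ℕ) + ν * i ≤ k + ν * i + t
        omega
      have h4 : b (τ ⟨k + ν * i + t, hlt t⟩) ≤ b (f (k, j)) := by
        refine hmono (b := finProdFinEquiv (j, k)) ?_
        show (k : ℕ) + ν * i + t ≤ k + ν * j
        have h1 : ν * (i + 1) ≤ ν * j := Nat.mul_le_mul_left ν hij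
        have h3 : ν * (i + 1) = ν * i + ν := by ring
        have := t.2
        omega
      exact (hb _ _).1 (le_antisymm (h4.trans h1.symm.le) h3)
    have h5 : (Set.range fun t : Fin (ν + 1) =>
        τ (⟨k + ν * i + t, hlt t⟩ : Fin (r * ν))).ncard = ν + 1 := by
      rw [← Set.image_univ, Set.ncard_image_of_injective, Set.ncard_univ, Nat.card_eq_fintype_card,
        Fintype.card_fin]
      intro t t' htt
      have h6 := τ.injective htt
      rw [Fin.mk.injEq] at h6
      exact Fin.ext (by omega)
    have h6 : (Set.range fun t : Fin (ν + 1) =>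
        τ (⟨k + ν * i + t, hlt t⟩ : Fin (r * ν))).ncard ≤ {x | a x = a (f (k, i))}.ncard := by
      refine Set.ncard_le_ncard ?_ (Set.toFinite _)
      rintro _ ⟨t, rfl⟩
      exact h2 t
    have h7 := h (a (f (k, i)))
    omega
  refine ⟨f, hf, fun k i j hij => ?_⟩
  rcases lt_or_gt_of_ne hij with h1 | h1
  · exact key k i j h1
  · exact (key k j i h1).symm

/-- **Disjoint blocks.** -/
theorem exists_blocks {α : Type*} (s ν : ℕ) {n : ℕ} (a : Fin n → α)
    (h : ∀ B : Finset α, B.card ≤ s → (s + 1 - B.card) * ν ≤ {i | a i ∉ B}.ncard) :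
    ∃ f : Fin ν × Fin (s + 1) → Fin n, Function.Injective f ∧
      ∀ k i j, i ≠ j → a (f (k, i)) ≠ a (f (k, j)) := by
  classical
  let cl : α → Finset (Fin n) := fun b => Finset.univ.filter fun i => a i = b
  have hex : ∀ b, ∃ C ⊆ cl b, C.card = min (cl b).card ν := fun b =>
    Finset.exists_subset_card_eq (min_le_left _ _)
  choose C hC hCc using hex
  let I : Finset α := Finset.univ.image a
  let U0 : Finset (Fin n) := I.biUnion C
  have hmem : ∀ b i, i ∈ C b → a i = b := fun b i hi =>
    (Finset.mem_filter.1 (hC b hi)).2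
  have hU0 : U0.card = ∑ b ∈ I, min (cl b).card ν := by
    rw [Finset.card_biUnion]
    · exact Finset.sum_congr rfl fun b _ => hCc b
    · intro b _ b' _ hbb
      refine Finset.disjoint_left.2 fun i hi hi' => hbb ?_
      rw [← hmem b i hi, hmem b' i hi']
  have hbig : (s + 1) * ν ≤ U0.card := by
    let B : Finset α := I.filter fun b => ν ≤ (cl b).card
    have h1 : U0.card = B.card * ν + {i | a i ∉ B}.ncard := by
      rw [hU0, ← Finset.sum_filter_add_sum_filter_not I fun b => ν ≤ (cl b).card]
      congr 1
      · rw [Finset.sum_congr rfl fun b hb => min_eq_right (Finset.mem_filter.1 hb).2,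
          Finset.sum_const, smul_eq_mul]
      · have h2 : {i | a i ∉ B} = ((Finset.univ.filter fun i => a i ∉ B : Finset (Fin n)) :
            Set (Fin n)) := by
          ext i
          simp
        rw [h2, Set.ncard_coe_finset]
        have h3 : ∀ i ∈ (Finset.univ.filter fun i => a i ∉ B : Finset (Fin n)),
            a i ∈ I.filter fun b => ¬ ν ≤ (cl b).card := by
          intro i hi
          have h4 := (Finset.mem_filter.1 hi).2
          have h5 : a i ∈ I := Finset.mem_image_of_mem a (Finset.mem_univ i)
          exact Finset.mem_filter.2 ⟨h5, fun h6 => h4 (Finset.mem_filter.2 ⟨h5, h6⟩)⟩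
        rw [Finset.card_eq_sum_card_fiberwise h3]
        refine Finset.sum_congr rfl fun b hb => ?_
        have h4 := (Finset.mem_filter.1 hb).2
        rw [min_eq_left (not_le.1 h4).le]
        congr 1
        ext i
        simp only [cl, Finset.mem_filter, Finset.mem_univ, true_and]
        constructor
        · intro hi
          refine ⟨fun h5 => h4 ?_, hi⟩
          rw [hi] at h5
          exact (Finset.mem_filter.1 h5).2
        · exact fun hi => hi.2
    rcases le_or_gt B.card s with h2 | h2
    · have h3 := h B h2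
      have h4 : (s + 1) * ν = B.card * ν + (s + 1 - B.card) * ν := by
        rw [← Nat.add_mul]
        congr 1
        omega
      omega
    · have h3 : (s + 1) * ν ≤ B.card * ν := Nat.mul_le_mul_right ν h2
      omega
  obtain ⟨U, hU, hUc⟩ := Finset.exists_subset_card_eq hbig
  let e := U.orderEmbOfFin hUc
  have he : ∀ i, e i ∈ U := fun i => Finset.orderEmbOfFin_mem U hUc i
  have hmul : ∀ b : α, {i | a (e i) = b}.ncard ≤ ν := by
    intro b
    have h1 : (e '' {i | a (e i) = b}).ncard = {i | a (e i) = b}.ncard :=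
      Set.ncard_image_of_injective _ e.injective
    rw [← h1]
    have h2 : (e '' {i | a (e i) = b}) ⊆ (C b : Set (Fin n)) := by
      rintro _ ⟨i, hi, rfl⟩
      obtain ⟨b', -, hb'⟩ := Finset.mem_biUnion.1 (hU (he i))
      have h3 := hmem b' _ hb'
      have hi' : a (e i) = b := hi
      rw [hi'] at h3
      rw [h3]
      exact hb'
    refine (Set.ncard_le_ncard h2 (Set.toFinite _)).trans ?_
    rw [Set.ncard_coe_finset, hCc]
    exact min_le_right _ _
  obtain ⟨f, hf, hfa⟩ := exists_blocks_sorted (s + 1) ν (fun i => a (e i)) hmul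
  exact ⟨fun x => e (f x), fun x y hxy => hf (e.injective hxy), hfa⟩

end Pool.Agent.Helper98.EP2
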