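import Pool.Agent.Helper35.KN.Ord
import Pool.Agent.Helper98.EP2.Blk

/-! Project elliptic powers: alternating sums and products of generalised eigenvectors. -/

set_option autoImplicit false

namespace Pool.Agent.Helper98.EP2

open TensorProduct Polynomial Pool.Agent.Helper35.KS Pool.Agent.Helper35.KN

variable {L V : Type*} [Field L] [AddCommGroup V] [Module L V] {n : ℕ}

theorem slot_aeval (i : Fin n) (F : Module.End L V) (f : L[X]) :
    slot i (aeval F f) = aeval (slot i F) f := by
  refine PiTensorProduct.ext (MultilinearMap.ext fun z => ?_)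
  rw [LinearMap.compMultilinearMap_apply, LinearMap.compMultilinearMap_apply, slot_tprod,
    aeval_slot]

/-- a different operator in each factor -/
theorem map_mem (S : Submodule L (⨂[L] _ : Fin n, V)) (G : Fin n → Module.End L V)
    (hG : ∀ i, ∀ t ∈ S, slot i (G i) t ∈ S) (t : ⨂[L] _ : Fin n, V) (ht : t ∈ S) :
    PiTensorProduct.map G t ∈ S := by
  classical
  have h : ∀ s : Finset (Fin n),
      PiTensorProduct.map (fun k : Fin n => if k ∈ s then G k else LinearMap.id) t ∈ S := by
    intro s
    induction s using Finset.induction_on with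
    | empty =>
      have h1 : (PiTensorProduct.map fun k : Fin n =>
          if k ∈ (∅ : Finset (Fin n)) then G k else LinearMap.id) =
          (LinearMap.id : Module.End L (⨂[L] _ : Fin n, V)) := by
        refine PiTensorProduct.ext (MultilinearMap.ext fun z => ?_)
        simp
      rw [h1]
      exact ht
    | insert i s hi ih =>
      have h1 : (PiTensorProduct.map fun k : Fin n =>
          if k ∈ insert i s then G k else LinearMap.id : Module.End L (⨂[L] _ : Fin n, V)) =
          slot i (G i) * PiTensorProduct.map fun k : Fin n =>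
            if k ∈ s then G k else LinearMap.id := by
        refine PiTensorProduct.ext (MultilinearMap.ext fun z => ?_)
        simp only [LinearMap.compMultilinearMap_apply, Module.End.mul_apply,
          PiTensorProduct.map_tprod, slot_tprod]
        congr 1
        funext k
        by_cases hk : k = i
        · subst hk
          rw [Function.update_self, if_pos (Finset.mem_insert_self _ _), if_neg hi]
          rfl
        · rw [Function.update_of_ne hk]
          by_cases hs : k ∈ s
          · rw [if_pos (Finset.mem_insert_of_mem hs), if_pos hs]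
          · rw [if_neg (fun h => (Finset.mem_insert.1 h).elim hk hs), if_neg hs]
      rw [h1, Module.End.mul_apply]
      exact hG i _ ih
  have h1 := h Finset.univ
  simp only [Finset.mem_univ, if_true] at h1
  exact h1

/-- polynomials which separate the factors -/
theorem exists_sep (F : Module.End L V) {a : Fin n → L} (ha : Function.Injective a)
    {z : Fin n → V} (hz : ∀ k, z k ∈ F.maxGenEigenspace (a k)) (i : Fin n) :
    ∃ f : L[X], aeval F f (z i) = z i ∧ ∀ j, j ≠ i → aeval F f (z j) = 0 := by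
  choose k hk using fun j => (Module.End.mem_maxGenEigenspace F (a j) (z j)).1 (hz j)
  have e : ∀ c : L, aeval F (X - C c : L[X]) = F - c • (1 : Module.End L V) := by
    intro c
    rw [map_sub, aeval_X, aeval_C, Algebra.algebraMap_eq_smul_one]
  have h1 : IsCoprime ((X - C (a i) : L[X]) ^ k i)
      (∏ j ∈ Finset.univ.erase i, (X - C (a j)) ^ k j) := by
    refine IsCoprime.prod_right fun j hj => ?_
    have hji : a i ≠ a j := fun h => (Finset.ne_of_mem_erase hj) (ha h).symm
    exact (isCoprime_X_sub_C_of_isUnit_sub (sub_ne_zero.2 hji).isUnit).pow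
  obtain ⟨u, v, huv⟩ := h1
  refine ⟨v * ∏ j ∈ Finset.univ.erase i, (X - C (a j)) ^ k j, ?_, fun j hj => ?_⟩
  · have h2 := congrArg (fun f => aeval F f (z i)) huv
    simp only [map_add, map_one, LinearMap.add_apply, Module.End.one_apply] at h2
    have h3 : aeval F (u * (X - C (a i)) ^ k i) (z i) = 0 := by
      rw [map_mul, map_pow, e, Module.End.mul_apply, hk, map_zero]
    rw [h3, zero_add] at h2
    exact h2
  · have hj' : j ∈ Finset.univ.erase i := Finset.mem_erase.2 ⟨hj, Finset.mem_univ j⟩
    have hd : (X - C (a j) : L[X]) ^ k j ∣ v * ∏ l ∈ Finset.univ.erase i, (X - C (a l)) ^ k l :=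
      (Finset.dvd_prod_of_mem (fun l => (X - C (a l) : L[X]) ^ k l) hj').mul_left v
    obtain ⟨g, hg⟩ := hd
    rw [hg, mul_comm, map_mul, Module.End.mul_apply, map_pow, e, hk, map_zero]

/-- **Alternating sums.** If the alternating sum of the products of generalised eigenvectors with
pairwise different eigenvalues is in `S` then the product is in `S`. -/
theorem alt_tprod_mem (F : Module.End L V) (S : Submodule L (⨂[L] _ : Fin n, V))
    (hF : ∀ i : Fin n, ∀ t ∈ S, slot i F t ∈ S) {a : Fin n → L} (ha : Function.Injective a)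
    {z : Fin n → V} (hz : ∀ k, z k ∈ F.maxGenEigenspace (a k))
    (h : ∑ σ : Equiv.Perm (Fin n),
      ((Equiv.Perm.sign σ : ℤ) : L) • PiTensorProduct.tprod L (z ∘ σ) ∈ S) :
    PiTensorProduct.tprod L z ∈ S := by
  choose f hf1 hf2 using exists_sep F ha hz
  have h1 := map_mem S (fun i => aeval F (f i)) (fun i t ht => by
    rw [slot_aeval]
    exact stable_aeval (slot i F) S (hF i) (f i) t ht) _ h
  rw [map_sum] at h1
  have h2 : ∀ σ : Equiv.Perm (Fin n), σ ≠ 1 →
      PiTensorProduct.map (fun i => aeval F (f i))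
        (((Equiv.Perm.sign σ : ℤ) : L) • PiTensorProduct.tprod L (z ∘ σ)) = 0 := by
    intro σ hσ
    obtain ⟨i, hi⟩ : ∃ i, σ i ≠ i := by
      by_contra h0
      simp only [not_exists, not_not] at h0
      exact hσ (Equiv.ext h0)
    rw [map_smul, PiTensorProduct.map_tprod]
    have h3 : (PiTensorProduct.tprod L fun j => (aeval F (f j)) ((z ∘ σ) j)) = 0 :=
      MultilinearMap.map_coord_zero _ i (hf2 i (σ i) hi)
    rw [h3, smul_zero]
  rw [Finset.sum_eq_single (1 : Equiv.Perm (Fin n)) (fun σ _ hσ => h2 σ hσ)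
    (fun h0 => absurd (Finset.mem_univ _) h0), Equiv.Perm.sign_one, map_smul,
    PiTensorProduct.map_tprod] at h1
  have h3 : (fun i => (aeval F (f i)) ((z ∘ (1 : Equiv.Perm (Fin n))) i)) = z := by
    funext i
    exact hf1 i
  rw [h3] at h1
  simpa using h1

/-- blocks of factors -/
theorem _root_.Pool.Agent.Helper35.KN.Closed.blocks
    {S : ∀ n : ℕ, ℕ → Submodule L (⨂[L] _ : Fin n, V)} (hS : Closed S) (s ν : ℕ) :
    ∀ (w : Fin ((s + 1) * ν) → V) (_ : ∀ (k : ℕ) (_ : k < ν)
      (hlt : ∀ i : Fin (s + 1), (s + 1) * k + i < (s + 1) * ν),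
      (PiTensorProduct.tprod L fun i : Fin (s + 1) => w ⟨(s + 1) * k + i, hlt i⟩) ∈ S (s + 1) 1),
        PiTensorProduct.tprod L w ∈ S ((s + 1) * ν) ν := by
  induction ν with
  | zero => intro w _; exact hS.zero _ _
  | succ ν ih =>
    intro w hw
    have hlt : ∀ i : Fin ((s + 1) * ν), (i : ℕ) < (s + 1) * (ν + 1) := fun i => by
      have := i.2
      rw [Nat.mul_succ]
      omega
    have h1 := ih (fun i => w (Fin.castAdd (s + 1) i)) fun k hk hl =>
      hw k (by omega) fun i => by
        have := hl i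
        rw [Nat.mul_succ]
        omega
    have h2 : PiTensorProduct.tprod L
        (fun i => w (Fin.natAdd ((s + 1) * ν) i) : Fin (s + 1) → V) ∈ S (s + 1) 1 :=
      hw ν (by omega) fun i => by
        have := i.2
        rw [Nat.mul_succ]
        omega
    have h3 := hS.mul ((s + 1) * ν) (s + 1) ν 1 _ _ h1 h2
    rw [mulT_tprod, append_eq] at h3
    exact h3

theorem _root_.Pool.Agent.Helper35.KN.Closed.blocks_rest
    {S : ∀ n : ℕ, ℕ → Submodule L (⨂[L] _ : Fin n, V)} (hS : Closed S) (s ν m : ℕ)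
    (w : Fin ((s + 1) * ν + m) → V) (hw : ∀ (k : ℕ) (_ : k < ν)
      (hlt : ∀ i : Fin (s + 1), (s + 1) * k + i < (s + 1) * ν + m),
      (PiTensorProduct.tprod L fun i : Fin (s + 1) => w ⟨(s + 1) * k + i, hlt i⟩) ∈ S (s + 1) 1) :
    PiTensorProduct.tprod L w ∈ S ((s + 1) * ν + m) ν := by
  have h1 := hS.blocks s ν (fun i => w (Fin.castAdd m i)) fun k hk hl =>
    hw k hk fun i => by
      have := hl i
      omega
  have h2 := hS.mul ((s + 1) * ν) m ν 0 _ _ h1
    (hS.zero m (PiTensorProduct.tprod L fun i => w (Fin.natAdd ((s + 1) * ν) i)))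
  rw [mulT_tprod, append_eq] at h2
  exact h2

/-- **Products of generalised eigenvectors.** -/
theorem _root_.Pool.Agent.Helper35.KN.Closed.tprod_mem_blocks
    {S : ∀ n : ℕ, ℕ → Submodule L (⨂[L] _ : Fin n, V)} (hS : Closed S) (s : ℕ)
    (F : Module.End L V)
    (hblock : ∀ (a : Fin (s + 1) → L) (x : Fin (s + 1) → V), Function.Injective a →
      (∀ i, x i ∈ F.maxGenEigenspace (a i)) → PiTensorProduct.tprod L x ∈ S (s + 1) 1)
    {n ν : ℕ} (a : Fin n → L) (z : Fin n → V) (hz : ∀ i, z i ∈ F.maxGenEigenspace (a i))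
    (ha : ∀ B : Finset L, B.card ≤ s → (s + 1 - B.card) * ν ≤ {i | a i ∉ B}.ncard) :
    PiTensorProduct.tprod L z ∈ S n ν := by
  have hn : (s + 1) * ν ≤ n := by
    have h1 := ha ∅ (by simp)
    have h2 : {i | a i ∉ (∅ : Finset L)} = Set.univ := by
      ext i
      simp
    rw [h2, Set.ncard_univ, Nat.card_eq_fintype_card, Fintype.card_fin] at h1
    simpa using h1
  obtain ⟨m, rfl⟩ := Nat.exists_eq_add_of_le hn
  obtain ⟨f, hf, hfa⟩ := exists_blocks s ν a ha
  have hlt : ∀ x : Fin ν × Fin (s + 1), (s + 1) * (x.1 : ℕ) + x.2 < (s + 1) * ν + m := by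
    intro x
    have h1 : (s + 1) * ((x.1 : ℕ) + 1) ≤ (s + 1) * ν := Nat.mul_le_mul_left _ x.1.2
    have h2 := x.2.2
    rw [Nat.mul_succ] at h1
    omega
  let g : Fin ν × Fin (s + 1) → Fin ((s + 1) * ν + m) := fun x =>
    ⟨(s + 1) * (x.1 : ℕ) + x.2, hlt x⟩
  have hg : Function.Injective g := by
    intro x y hxy
    have h1 : (s + 1) * (x.1 : ℕ) + x.2 = (s + 1) * (y.1 : ℕ) + y.2 := congrArg Fin.val hxy
    have h2 : (x.1 : ℕ) = y.1 := by
      have h3 := congrArg (fun t => t / (s + 1)) h1
      simp only [Nat.mul_add_div (Nat.succ_pos s)] at h3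
      rw [Nat.div_eq_of_lt x.2.2, Nat.div_eq_of_lt y.2.2] at h3
      simpa using h3
    have h3 : (x.2 : ℕ) = y.2 := by
      rw [h2] at h1
      omega
    exact Prod.ext (Fin.ext h2) (Fin.ext h3)
  obtain ⟨σ, hσ⟩ := exists_perm g f hg hf
  refine hS.perm_iff σ z (hS.blocks_rest s ν m _ fun k hk hl => ?_)
  have h1 : ∀ i : Fin (s + 1), σ ⟨(s + 1) * k + i, hl i⟩ = f (⟨k, hk⟩, i) := fun i =>
    hσ (⟨k, hk⟩, i)
  refine hblock (fun i => a (f (⟨k, hk⟩, i))) _ (fun i j hij => ?_) fun i => ?_
  · by_contra h0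
    exact hfa ⟨k, hk⟩ i j h0 hij
  · show z (σ ⟨(s + 1) * k + i, hl i⟩) ∈ _
    rw [h1]
    exact hz _

end Pool.Agent.Helper98.EP2
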