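import Pool.Agent.Helper98.EP2.Alt

/-! Project elliptic powers: endomorphisms whose eigenvalues of slope zero are arbitrary. -/

set_option autoImplicit false

namespace Pool.Agent.Helper98.EP2

open TensorProduct Pool.Agent.Helper35.KS Pool.Agent.Helper35.KN

variable {L V : Type*} [Field L] [AddCommGroup V] [Module L V]

/-- Any `s` or fewer eigenvalues, no two of them with the product `q ^ 2`, are units of a valuation
ring in which `q` is not a unit; if there are `s` of them then `b / q` is a unit for the other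
eigenvalues `b`, except for the `q ^ 2 / a`. -/
def OrdS (s : ℕ) (F : Module.End L V) (q : L) : Prop :=
  ∀ A : Finset L, A.card ≤ s → (∀ a ∈ A, F.HasEigenvalue a) →
    (∀ a ∈ A, ∀ b ∈ A, a ≠ b → a * b ≠ q ^ 2) →
      ∃ R : ValuationSubring L, q ≠ 0 ∧ q ∈ R ∧ q⁻¹ ∉ R ∧ (∀ a ∈ A, a ≠ 0 ∧ a ∈ R ∧ a⁻¹ ∈ R) ∧
        (A.card = s → ∀ b : L, F.HasEigenvalue b →
          b ∈ A ∨ (∃ a ∈ A, b * a = q ^ 2) ∨ b / q ∈ R ∧ q / b ∈ R)

theorem inv_mem_of_pow {R : ValuationSubring L} {q : L} (hq : q ∈ R) (d : ℕ)
    (h : q⁻¹ ^ (d + 1) ∈ R) (hq0 : q ≠ 0) : q⁻¹ ∈ R := by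
  have h5 := R.mul_mem _ _ h (pow_mem hq d)
  have h6 : q⁻¹ ^ (d + 1) * q ^ d = q⁻¹ := by
    rw [pow_succ, mul_right_comm, ← mul_pow, inv_mul_cancel₀ hq0, one_pow, one_mul]
  rwa [h6] at h5

/-- the slope of a product -/
theorem le_card_of_integral [DecidableEq L] (R : ValuationSubring L) {q : L} (hq0 : q ≠ 0)
    (hqR : q ∈ R) (hqR' : q⁻¹ ∉ R) {n w : ℕ} (a : Fin n → L) (A : Finset L)
    (ha0 : ∀ i, a i ≠ 0) (hA : ∀ i, a i ∈ A → (a i)⁻¹ ∈ R) (hB : ∀ i, a i ∉ A → q / a i ∈ R)
    (hint : IsIntegral ℤ ((∏ i, a i) / q ^ w)) :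
    w ≤ (Finset.univ.filter fun i => a i ∉ A).card := by
  have h1 : q ^ ((Finset.univ.filter fun k => a k ∉ A).card) / ∏ k, a k ∈ R := by
    have h2 : q ^ ((Finset.univ.filter fun k => a k ∉ A).card) / ∏ k, a k =
        ∏ k, (if a k ∉ A then q / a k else (a k)⁻¹) := by
      have h3 : ∀ k, (if a k ∉ A then q / a k else (a k)⁻¹) =
          (if a k ∉ A then q else 1) * (a k)⁻¹ := by
        intro k
        by_cases hk : a k ∈ A
        · rw [if_neg (not_not.2 hk), if_neg (not_not.2 hk), one_mul]
        · rw [if_pos hk, if_pos hk, div_eq_mul_inv]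
      rw [Finset.prod_congr rfl fun k _ => h3 k, Finset.prod_mul_distrib,
        Finset.prod_inv_distrib, div_eq_mul_inv, Finset.prod_ite, Finset.prod_const,
        Finset.prod_const_one, mul_one]
    rw [h2]
    refine prod_mem fun k _ => ?_
    by_cases hk : a k ∈ A
    · rw [if_neg (not_not.2 hk)]
      exact hA k hk
    · rw [if_pos hk]
      exact hB k hk
  have h2 : (∏ k, a k) / q ^ w ∈ R := by
    have h3 : IsIntegral R ((∏ k, a k) / q ^ w) := hint.tower_top
    obtain ⟨r, hr⟩ := (IsIntegrallyClosed.isIntegral_iff (R := R) (K := L)).1 h3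
    rw [← hr]
    exact r.2
  have h3 := R.mul_mem _ _ h1 h2
  have hne : ∏ k, a k ≠ 0 := Finset.prod_ne_zero_iff.2 fun k _ => ha0 k
  rw [div_mul_div_cancel₀ hne] at h3
  by_contra hlt
  rw [not_le] at hlt
  obtain ⟨d, rfl⟩ := Nat.exists_eq_add_of_lt hlt
  have h4 : q ^ ((Finset.univ.filter fun k => a k ∉ A).card) /
      q ^ ((Finset.univ.filter fun k => a k ∉ A).card + d + 1) = q⁻¹ ^ (d + 1) := by
    rw [add_assoc, pow_add, ← div_div, div_self (pow_ne_zero _ hq0), one_div, inv_pow]
  rw [h4] at h3
  exact hqR' (inv_mem_of_pow hqR d h3 hq0)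

theorem _root_.Pool.Agent.Helper35.KN.Closed.tprod_mem_ords
    {S : ∀ n : ℕ, ℕ → Submodule L (⨂[L] _ : Fin n, V)} (hS : Closed S)
    (hmono : ∀ n ν, S n (ν + 1) ≤ S n ν) (s : ℕ) (hs : 0 < s)
    (F : Module.End L V) (q : L) (hq : OrdS s F q)
    (hblock : ∀ (a : Fin (s + 1) → L) (x : Fin (s + 1) → V), Function.Injective a →
      (∀ i, x i ∈ F.maxGenEigenspace (a i)) → PiTensorProduct.tprod L x ∈ S (s + 1) 1)
    (hT : ∀ (a b : L) (x y : V), a * b = q ^ 2 → x ∈ F.maxGenEigenspace a →
      y ∈ F.maxGenEigenspace b → PiTensorProduct.tprod L ![x, y] ∈ S 2 2) (n : ℕ) :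
    ∀ (ν w : ℕ) (_ : s * ν < w + s) (_ : ν ≤ 1 ∨ (s + 1) * ν ≤ n) (a : Fin n → L) (z : Fin n → V)
      (_ : ∀ i, z i ∈ F.maxGenEigenspace (a i)) (_ : ∀ i, F.HasEigenvalue (a i))
      (_ : IsIntegral ℤ ((∏ i, a i) / q ^ w)), PiTensorProduct.tprod L z ∈ S n ν := by
  classical
  have hone : ∀ e : L, F.HasEigenvalue e → e ≠ 0 ∧ e * e ≠ q ^ 2 := by
    intro e he
    obtain ⟨R, hq0, hqR, hqR', hA, -⟩ := hq {e} (by rw [Finset.card_singleton]; exact hs)
      (fun a ha => by rw [Finset.mem_singleton.1 ha]; exact he)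
      (fun a ha b hb hab => absurd ((Finset.mem_singleton.1 ha).trans
        (Finset.mem_singleton.1 hb).symm) hab)
    obtain ⟨he0, heR, heR'⟩ := hA e (Finset.mem_singleton_self e)
    refine ⟨he0, fun hj => hqR' ?_⟩
    have h1 : q⁻¹ = e⁻¹ * e⁻¹ * q := by
      have : e * e = q * q := by rw [hj, sq]
      field_simp
      rw [sq, sq]
      exact this
    rw [h1]
    exact R.mul_mem _ _ (R.mul_mem _ _ heR' heR') hqR
  induction n using Nat.strong_induction_on with
  | h n ih =>
    intro ν w hw hn a z hz ha hint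
    rcases Nat.eq_zero_or_pos ν with hν | hν
    · subst hν
      exact hS.zero n _
    have hsν : s ≤ s * ν := Nat.le_mul_of_pos_right s hν
    have hw0 : 0 < w := by omega
    by_cases hdual : ∃ i j, a i * a j = q ^ 2
    · obtain ⟨i, j, hj⟩ := hdual
      have hji : i ≠ j := by
        intro hij
        rw [← hij] at hj
        exact (hone (a i) (ha i)).2 hj
      have hn2 : 2 ≤ n := by
        have := i.2; have := j.2
        by_contra h
        have h1 : (i : ℕ) = j := by omega
        exact hji (Fin.ext h1)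
      obtain ⟨n', rfl⟩ := Nat.exists_eq_add_of_le hn2
      obtain ⟨σ, hσ0, hσ1⟩ := exists_front i j hji
      have hpair : PiTensorProduct.tprod L ![(z ∘ σ) (Fin.castAdd n' 0),
          (z ∘ σ) (Fin.castAdd n' 1)] ∈ S 2 2 := by
        refine hT (a i) (a j) _ _ hj ?_ ?_
        · show z (σ (Fin.castAdd n' 0)) ∈ _
          rw [hσ0]
          exact hz i
        · show z (σ (Fin.castAdd n' 1)) ∈ _
          rw [hσ1]
          exact hz j
      rcases Nat.lt_or_ge ν 2 with hν2 | hν2
      · have hν1 : ν = 1 := by omega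
        subst hν1
        exact hS.perm_iff σ z (hS.front (μ := 1) (ν := 0) _ (hmono 2 1 hpair) (hS.zero _ _))
      · obtain ⟨ν', rfl⟩ := Nat.exists_eq_add_of_le hν2
        have hmul : s * (2 + ν') = 2 * s + s * ν' := by ring
        have hmul' : (s + 1) * (2 + ν') = 2 * s + 2 + (s + 1) * ν' := by ring
        have hw2 : 2 ≤ w := by omega
        obtain ⟨w', rfl⟩ := Nat.exists_eq_add_of_le hw2
        refine hS.perm_iff σ z (hS.front _ hpair ?_)
        refine ih n' (by omega) ν' w' (by omega) (by omega) (fun k => a (σ (Fin.natAdd 2 k))) _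
          (fun k => hz _) (fun k => ha _) ?_
        have h1 : ∏ k, a k = a (σ (Fin.castAdd n' 0)) * a (σ (Fin.castAdd n' 1)) *
            ∏ k : Fin n', a (σ (Fin.natAdd 2 k)) := by
          rw [← Equiv.prod_comp σ a]
          exact prod_front fun k => a (σ k)
        have h2 : a (σ (Fin.castAdd n' 0)) * a (σ (Fin.castAdd n' 1)) = q ^ 2 := by
          rw [hσ0, hσ1]
          exact hj
        have hq0 : q ≠ 0 := by
          intro h0
          rw [h0, zero_pow two_ne_zero] at hj
          rcases mul_eq_zero.1 hj with h3 | h3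
          · exact (hone _ (ha i)).1 h3
          · exact (hone _ (ha j)).1 h3
        rw [h2] at h1
        rw [h1, pow_add, mul_div_mul_left _ _ (pow_ne_zero 2 hq0)] at hint
        exact hint
    · simp only [not_exists] at hdual
      let D : Finset L := Finset.univ.image a
      have hD : ∀ b ∈ D, ∃ i, a i = b := fun b hb => by
        obtain ⟨i, -, hi⟩ := Finset.mem_image.1 hb
        exact ⟨i, hi⟩
      have hDmem : ∀ i, a i ∈ D := fun i => Finset.mem_image_of_mem a (Finset.mem_univ i)
      have hDev : ∀ b ∈ D, F.HasEigenvalue b := fun b hb => by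
        obtain ⟨i, rfl⟩ := hD b hb
        exact ha i
      have hDfree : ∀ b ∈ D, ∀ b' ∈ D, b * b' ≠ q ^ 2 := fun b hb b' hb' => by
        obtain ⟨i, rfl⟩ := hD b hb
        obtain ⟨j, rfl⟩ := hD b' hb'
        exact hdual i j
      have hDcard : s + 1 ≤ D.card := by
        by_contra hlt
        obtain ⟨R, hq0, hqR, hqR', hA, -⟩ := hq D (by omega) hDev
          (fun b hb b' hb' _ => hDfree b hb b' hb')
        have h1 := le_card_of_integral R hq0 hqR hqR' a D (fun i => (hone _ (ha i)).1)
          (fun i _ => (hA _ (hDmem i)).2.2) (fun i hi => absurd (hDmem i) hi) hint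
        have h2 : (Finset.univ.filter fun i => a i ∉ D) = ∅ :=
          Finset.filter_eq_empty_iff.2 fun i _ => by
            rw [not_not]
            exact hDmem i
        rw [h2, Finset.card_empty] at h1
        omega
      have hDn : D.card ≤ n := by
        have h1 := Finset.card_image_le (s := (Finset.univ : Finset (Fin n))) (f := a)
        rwa [Finset.card_univ, Fintype.card_fin] at h1
      refine hS.tprod_mem_blocks s F hblock a z hz fun B hB => ?_
      let B' : Finset L := B.filter fun b => b ∈ D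
      have hB' : B'.card ≤ B.card := Finset.card_filter_le _ _
      have h1 : {i | a i ∉ B} = ((Finset.univ.filter fun i => a i ∉ B' : Finset (Fin n)) :
          Set (Fin n)) := by
        ext i
        simp [B', hDmem i]
      rw [h1, Set.ncard_coe_finset]
      have h2 : (s + 1 - B.card) * ν ≤ (s + 1 - B'.card) * ν := Nat.mul_le_mul_right ν (by omega)
      refine h2.trans ?_
      rcases Nat.eq_zero_or_pos B'.card with h3 | h3
      · have h4 : B' = ∅ := Finset.card_eq_zero.1 h3
        have h5 : (Finset.univ.filter fun i => a i ∉ B') = Finset.univ :=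
          Finset.filter_true_of_mem fun i _ => by
            rw [h4]
            exact Finset.notMem_empty _
        rw [h5, h3, Nat.sub_zero, Finset.card_univ, Fintype.card_fin]
        rcases hn with h6 | h6
        · have h7 : ν = 1 := by omega
          rw [h7, mul_one]
          omega
        · exact h6
      · have hBD : B' ⊆ D := fun b hb => (Finset.mem_filter.1 hb).2
        obtain ⟨A, hBA, hAD, hAc⟩ := Finset.exists_subsuperset_card_eq hBD (hB'.trans hB)
          (by omega : s ≤ D.card)
        obtain ⟨R, hq0, hqR, hqR', hA, hA'⟩ := hq A hAc.le (fun b hb => hDev b (hAD hb))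
          (fun b hb b' hb' _ => hDfree b (hAD hb) b' (hAD hb'))
        have h4 := le_card_of_integral R hq0 hqR hqR' a A (fun i => (hone _ (ha i)).1)
          (fun i hi => (hA _ hi).2.2) (fun i hi => by
            rcases hA' hAc (a i) (ha i) with h5 | ⟨b, hb, h5⟩ | h5
            · exact absurd h5 hi
            · exact absurd h5 (hDfree _ (hDmem i) b (hAD hb))
            · exact h5.2) hint
        have h5 : (Finset.univ.filter fun i => a i ∉ A).card + (A \ B').card ≤
            (Finset.univ.filter fun i => a i ∉ B').card := by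
          have h6 : (A \ B').card ≤ (Finset.univ.filter fun i => a i ∈ A \ B').card := by
            have h7 : A \ B' ⊆ (Finset.univ.filter fun i => a i ∈ A \ B').image a := by
              intro b hb
              obtain ⟨i, hi⟩ := hD b (hAD (Finset.mem_sdiff.1 hb).1)
              refine Finset.mem_image.2 ⟨i, Finset.mem_filter.2 ⟨Finset.mem_univ i, ?_⟩, hi⟩
              rw [hi]
              exact hb
            exact (Finset.card_le_card h7).trans Finset.card_image_le
          have h7 : Disjoint (Finset.univ.filter fun i => a i ∉ A)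
              (Finset.univ.filter fun i => a i ∈ A \ B') := by
            refine Finset.disjoint_left.2 fun i hi hi' => ?_
            exact (Finset.mem_filter.1 hi).2 (Finset.mem_sdiff.1 (Finset.mem_filter.1 hi').2).1
          have h8 : (Finset.univ.filter fun i => a i ∉ A) ∪
              (Finset.univ.filter fun i => a i ∈ A \ B') ⊆
                Finset.univ.filter fun i => a i ∉ B' := by
            intro i hi
            refine Finset.mem_filter.2 ⟨Finset.mem_univ i, fun hb => ?_⟩
            rcases Finset.mem_union.1 hi with h9 | h9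
            · exact (Finset.mem_filter.1 h9).2 (hBA hb)
            · exact (Finset.mem_sdiff.1 (Finset.mem_filter.1 h9).2).2 hb
          have h9 := Finset.card_le_card h8
          rw [Finset.card_union_of_disjoint h7] at h9
          omega
        have h6 : (A \ B').card = s - B'.card := by
          rw [Finset.card_sdiff_of_subset hBA, hAc]
        have h7 : B'.card ≤ s := hB'.trans hB
        rw [h6] at h5
        obtain ⟨j, hj⟩ : ∃ j, B'.card = j + 1 := ⟨B'.card - 1, by omega⟩
        obtain ⟨t, ht⟩ : ∃ t, ν = t + 1 := ⟨ν - 1, by omega⟩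
        obtain ⟨u, hu⟩ : ∃ u, s = B'.card + u := ⟨s - B'.card, by omega⟩
        have h8 : s + 1 - B'.card = u + 1 := by omega
        have h9 : s - B'.card = u := by omega
        rw [h8, ht]
        rw [h9] at h5
        have h10 : s * ν = (j + 1 + u) * (t + 1) := by rw [hu, hj, ht]
        have h11 : (u + 1) * (t + 1) + j * t + j = (j + 1 + u) * (t + 1) := by ring
        have h12 : s = j + 1 + u := by rw [hu, hj]
        have h13 : 0 ≤ j * t := Nat.zero_le _
        omega

end Pool.Agent.Helper98.EP2
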